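import Mathlib

namespace Pool.Agent.Results.MP_dba3a1_an.No

def IsAW (A : Type) [CStarAlgebra A] : Prop :=
  ∀ S : Set A, ∃ e : A, IsStarProjection e ∧ ∀ y, (∀ x ∈ S, x * y = 0) ↔ ∃ a, y = e * a

def PM (A : Type) [CStarAlgebra A] : Submonoid A := Submonoid.closure {e | IsStarProjection e}

def IsRann {A : Type} [CStarAlgebra A] (S : Set (PM A)) (e : PM A) : Prop :=
  IsStarProjection (e : A) ∧ ∀ y : PM A, (∀ x ∈ S, (x : A) * y = 0) ↔ ∃ a : PM A, y = e * a

def IsMor {A B : Type} [CStarAlgebra A] [CStarAlgebra B] (φ : PM A → PM B) : Prop :=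
  (∀ x y, φ (x * y) = φ x * φ y) ∧
  (∀ x y : PM A, (y : A) = star (x : A) → (φ y : B) = star (φ x : B)) ∧
  ∀ (S : Set (PM A)) (e : PM A), IsRann S e → IsRann (φ '' S) (φ e)

theorem result : ∃ (A B : Type) (_ : CStarAlgebra A) (_ : CStarAlgebra B), IsAW A ∧ IsAW B ∧
    ∃ φ : PM A → PM B, IsMor φ ∧ ¬ ∃ f : A →⋆ₙₐ[ℂ] B, ∀ x : PM A, f x = φ x := by
  let _ : CStarAlgebra (Matrix (Fin 2) (Fin 2) ℂ) := Matrix.instCStarAlgebra
  have hAW : IsAW (Matrix (Fin 2) (Fin 2) ℂ) := by
    intro S
    let T := Matrix.toEuclideanCLM (n := Fin 2) (𝕜 := ℂ)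
    let K : Submodule ℂ (EuclideanSpace ℂ (Fin 2)) := ⨅ x ∈ S, (T x).ker
    have hK : IsStarProjection K.starProjection := isStarProjection_starProjection
    refine ⟨T.symm K.starProjection, hK.map T.symm, fun y => ⟨fun h => ⟨y, EquivLike.injective T ?_⟩, ?_⟩⟩
    · rw [map_mul, T.apply_symm_apply]
      ext1 v
      refine (Submodule.starProjection_eq_self_iff.mpr ?_).symm
      simp only [K, Submodule.mem_iInf]
      intro x hx
      have := congrArg (fun z => T z v) (h x hx)
      simpa using this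
    · rintro ⟨a, rfl⟩ x hx
      apply EquivLike.injective T
      rw [map_mul, map_mul, T.apply_symm_apply, map_zero]
      ext1 v
      have h1 : K.starProjection (T a v) ∈ K := Submodule.starProjection_apply_mem _ _
      simp only [K, Submodule.mem_iInf] at h1
      exact h1 x hx
  let c : Matrix (Fin 2) (Fin 2) ℂ →+* Matrix (Fin 2) (Fin 2) ℂ := (starRingEnd ℂ).mapMatrix
  have cc : ∀ x, c (c x) = x := fun x => by ext i j; simp [c]
  have cs : ∀ x, c (star x) = star (c x) := fun x => by ext i j; simp [c]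
  have cp : ∀ e, IsStarProjection e → IsStarProjection (c e) := fun e he =>
    ⟨by rw [IsIdempotentElem, ← map_mul, he.1.eq], by rw [IsSelfAdjoint, ← cs, he.2.star_eq]⟩
  have cm : ∀ x ∈ PM (Matrix (Fin 2) (Fin 2) ℂ), c x ∈ PM (Matrix (Fin 2) (Fin 2) ℂ) := by
    intro x hx
    induction hx using Submonoid.closure_induction with
    | mem e he => exact Submonoid.subset_closure (cp e he)
    | one => rw [map_one]; exact one_mem _
    | mul x y _ _ hx hy => rw [map_mul]; exact mul_mem hx hy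
  let φ : PM (Matrix (Fin 2) (Fin 2) ℂ) → PM (Matrix (Fin 2) (Fin 2) ℂ) :=
    fun x => ⟨c x, cm x x.2⟩
  have φφ : ∀ x, φ (φ x) = x := fun x => Subtype.ext (cc x)
  have φm : ∀ x y, φ (x * y) = φ x * φ y := fun x y => Subtype.ext (map_mul c _ _)
  refine ⟨_, _, inferInstance, inferInstance, hAW, hAW, φ, ⟨φm, fun x y h => ?_, ?_⟩, ?_⟩
  · show c y = star (c x)
    rw [h, cs]
  · rintro S e ⟨he, h⟩
    refine ⟨cp _ he, fun y => ⟨fun hy => ?_, ?_⟩⟩
    · obtain ⟨a, ha⟩ := (h (φ y)).mp fun x hx => by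
        have := congrArg c (hy (φ x) ⟨x, hx, rfl⟩)
        rw [map_mul, map_zero] at this
        simpa [φ, cc] using this
      exact ⟨φ a, by rw [← φm, ← ha, φφ]⟩
    · rintro ⟨a, rfl⟩ _ ⟨x, hx, rfl⟩
      have := congrArg c ((h (e * φ a)).mpr ⟨φ a, rfl⟩ x hx)
      rw [map_mul, map_zero] at this
      simpa [φ, cc] using this
  · rintro ⟨f, hf⟩
    let p : Matrix (Fin 2) (Fin 2) ℂ := !![1, 0; 0, 0]
    let q : Matrix (Fin 2) (Fin 2) ℂ := !![1 / 2, 1 / 2; 1 / 2, 1 / 2]
    let s : Matrix (Fin 2) (Fin 2) ℂ := !![1 / 2, -Complex.I / 2; Complex.I / 2, 1 / 2]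
    have hp : IsStarProjection p := ⟨by
      show p * p = p
      ext i j; fin_cases i <;> fin_cases j <;> simp [p], by
      show star p = p
      ext i j; fin_cases i <;> fin_cases j <;> simp [p]⟩
    have hq : IsStarProjection q := ⟨by
      show q * q = q
      ext i j; fin_cases i <;> fin_cases j <;> simp [q] <;> norm_num, by
      show star q = q
      ext i j; fin_cases i <;> fin_cases j <;> simp [q]⟩
    have hs : IsStarProjection s := ⟨by
      show s * s = s
      ext i j; fin_cases i <;> fin_cases j <;> simp [s] <;> ring_nf <;> simp <;> norm_num, by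
      show star s = s
      ext i j; fin_cases i <;> fin_cases j <;> simp [s]⟩
    have m : ∀ e, IsStarProjection e → f e = c e := fun e he => hf ⟨e, Submonoid.subset_closure he⟩
    have e1 : p * s = (-Complex.I) • (p * q) + ((1 + Complex.I) / 2) • p := by
      ext i j; fin_cases i <;> fin_cases j <;> simp [p, q, s] <;> ring
    have e2 := congrArg f e1
    rw [map_add, map_smul, map_smul, map_mul, map_mul, m p hp, m q hq, m s hs] at e2
    have e3 := congrFun (congrFun e2 0) 1
    simp [c, p, q, s, Matrix.mul_apply] at e3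
    rw [map_ofNat] at e3
    have e4 := congrArg Complex.im e3
    norm_num at e4

end Pool.Agent.Results.MP_dba3a1_an.No
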